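import Pool.Agent.H440Q.W.AllX

/-!
# `P = PH` does not bound the power of one quantum question

There is an oracle `A` relative to which the polynomial hierarchy collapses to `P`, while every
language in `PSPACE` is decided, with probability of error at most `1/3`, by polynomial-time uniform
quantum circuits which ask the oracle only ONE question, and some language decided in this way is
not in `P`.
-/

set_option autoImplicit false

namespace Pool.Agent.Results.MP_8064f4_lc.OneQuantumQuestion

open Pool.Agent.H620R2.Gauge Pool.Agent.H440Q

theorem result : ∃ A : Oracle, (∀ L, IsPH A L ↔ IsP A L) ∧ (∀ L, IsPSPACE A L → IsBQPq 1 A L) ∧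
    ∃ L, IsBQPq 1 A L ∧ ¬ IsP A L :=
  Pool.Agent.H440Q.W.all_FX

end Pool.Agent.Results.MP_8064f4_lc.OneQuantumQuestion
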